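import Pool.Agent.Helper45.LGB.St

set_option autoImplicit false

namespace Pool.Agent.Helper6.LGB

open Pool.Agent.Helper45.LGB

theorem hMJD (hNRT : StNRT) (hPKU : StPKU) (hLST : StLST) (hNLX : StNLX) : StMJD := by
  intro p m r q _ hmp hPP ι E V _ _ f Y W W' x w hctx hx hw
  obtain ⟨hC, _⟩ := hNLX p m ι E V f Y W W' x hmp hctx hx
  obtain ⟨hsy, hcmm, hWW, hsW, hsW', hnil⟩ := hctx
  obtain ⟨hrefl, _, _, hsymm, _⟩ := hNRT ι E
  obtain ⟨_, hP2, _, _, _⟩ := hPKU ι E
  obtain ⟨_, _, _, _, _, hact, _, hstab, _⟩ := hLST p ι V f Y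
  have hxw : f x w ∈ W := hsW x hx w hw
  have h2 : ∀ j, Stb f Y (Mj E f Y W' r x w j) := by
    intro j y hy z hz
    have hle : Mj E f Y W' r x w j ≤ (Mj E f Y W' r x w j).comap (f y) := by
      refine sup_le (Submodule.span_le.2 ?_) ?_
      · rintro z ⟨γ, u, hγ, hPk, hu, rfl⟩
        refine Submodule.mem_sup_left (Submodule.subset_span ⟨γ, u ++ [y], hγ, hPk, ?_, ?_⟩)
        · intro i hi
          rcases List.mem_append.1 hi with h | h
          · exact hu i h
          · rw [List.mem_singleton.1 h]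
            exact hy
        · rw [hact u [y]]
          rfl
      · intro z hz
        exact Submodule.mem_sup_right (hsW' y hy z hz)
    exact hle hz
  have h3 : ∀ j, W' ≤ Mj E f Y W' r x w j ∧ Mj E f Y W' r x w j ≤ W := by
    intro j
    refine ⟨le_sup_right, sup_le (Submodule.span_le.2 ?_) hWW⟩
    rintro z ⟨γ, u, hγ, _, hu, rfl⟩
    exact hstab W hsW u hu _ (hstab W hsW γ (fun i hi => (hγ i hi).1) _ hxw)
  refine ⟨?_, h2, h3, ?_, ?_, ?_, ?_⟩
  · intro j
    refine sup_le_sup_right (Submodule.span_mono ?_) _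
    rintro z ⟨γ, u, hγ, hPk, hu, rfl⟩
    exact ⟨γ, u, hγ, hP2 r (j + 1) j _ _ hPk (Nat.le_succ j) (fun _ h => h), hu, rfl⟩
  · refine sup_le (Submodule.span_le.2 ?_) le_rfl
    rintro z ⟨γ, u, hγ, hPk, hu, rfl⟩
    exact hstab W' hsW' u hu _ (hPP ι E V f _ _ W' hC γ (fun i hi => hγ i hi) hPk _
      (Submodule.mem_sup_left (Submodule.mem_map_of_mem hw)))
  · refine Submodule.mem_sup_left (Submodule.subset_span ⟨[], [], ?_, ⟨∅, rfl, ?_, ?_⟩, ?_, rfl⟩)
    · intro i hi
      exact absurd hi (List.not_mem_nil)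
    · intro i hi
      exact absurd hi (Finset.notMem_empty i)
    · intro i hi
      exact absurd hi (Finset.notMem_empty i)
    · intro i hi
      exact absurd hi (List.not_mem_nil)
  · intro j
    exact ⟨hsy, hcmm, (h3 j).2, hsW, h2 j, fun l hl v hv => (h3 j).1 (hnil l hl v hv)⟩
  · intro j γ z hγ hz hxz hfar hPk
    classical
    obtain ⟨P, hcard, hPT, hPd⟩ := hPk
    have hzP : z ∉ P := fun h => hfar z (hPT z h) (hrefl r z)
    refine Submodule.mem_sup_left (Submodule.subset_span
      ⟨γ ++ [z], [], ?_, ⟨insert z P, ?_, ?_, ?_⟩, ?_, ?_⟩)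
    · intro i hi
      rcases List.mem_append.1 hi with h | h
      · exact hγ i h
      · rw [List.mem_singleton.1 h]
        exact ⟨hz, hxz⟩
    · rw [Finset.card_insert_of_notMem hzP, hcard]
    · intro a ha
      rcases Finset.mem_insert.1 ha with h | h
      · rw [h]
        exact List.mem_append_right γ (List.mem_singleton.2 rfl)
      · exact List.mem_append_left [z] (hPT a h)
    · intro a ha b hb hab hn
      rcases Finset.mem_insert.1 ha with h | h
      · rcases Finset.mem_insert.1 hb with h' | h'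
        · exact hab (h.trans h'.symm)
        · rw [h] at hn
          exact hfar b (hPT b h') (hsymm hsy r z b hn)
      · rcases Finset.mem_insert.1 hb with h' | h'
        · rw [h'] at hn
          exact hfar a (hPT a h) hn
        · exact hPd a h b h' hab hn
    · intro i hi
      exact absurd hi (List.not_mem_nil)
    · rw [hact γ [z]]
      rfl

end Pool.Agent.Helper6.LGB
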